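import Pool.Agent.H732R3.BigQ

set_option autoImplicit false

/-! The forms `(A + F C) n + (B + F E)` with `A E - B C = c`, for five classes of integers `F`. -/

namespace Pool.Agent.W76

open Finset Pool.Agent.H732R3.BigQ

/-- The primes `q` for which `a p - b q = c` has a solution in primes `p`. -/
def Sol (a b : ℕ) (c : ℤ) : Set ℕ := {q | q.Prime ∧ ∃ p : ℕ, p.Prime ∧ (a : ℤ) * p - b * q = c}

theorem nat_prime_toNat {z : ℤ} (hz : 0 < z) (hp : Prime z) : z.toNat.Prime := by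
  rw [Nat.prime_iff_prime_int, Int.toNat_of_nonneg hz.le]
  exact hp

theorem unit_of_isCoprime {l : ℕ} {x : ℤ} (hl : l.Prime) (hx : ¬ (l : ℤ) ∣ x) :
    ∃ u v : ℤ, u * x + v * l = 1 := by
  have h : IsCoprime (l : ℤ) x := by
    rw [Int.isCoprime_iff_gcd_eq_one]
    have h1 : Int.gcd (l : ℤ) x = Nat.gcd l x.natAbs := by simp [Int.gcd]
    rw [h1]
    exact (Nat.Prime.coprime_iff_not_dvd hl).2 (fun h => hx (Int.natCast_dvd.2 h))
  obtain ⟨a, b, hab⟩ := h
  exact ⟨b, a, by linarith⟩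

/-- The simultaneous local solubility of the forms. -/
theorem forms_admissible {K : ℕ} (hK : 1 ≤ K) (F : Fin 5 → Fin K → ℕ) (A C : ℕ) (B E c : ℤ)
    (hBE : (A : ℤ) * E - B * C = c)
    (hunit : ∀ g i, IsCoprime ((A + F g i * C : ℕ) : ℤ) c)
    (hadm : ∀ l : ℕ, l.Prime → l ∣ C → ¬ (l : ℤ) ∣ c → ∃ ν : ℤ, ∀ g i, ¬ (l : ℤ) ∣ ν + F g i)
    (l : ℕ) (hl : l.Prime) :
    ∃ n : ℤ, ∀ g i, ¬ (l : ℤ) ∣ ((A + F g i * C : ℕ) : ℤ) * n + (B + F g i * E) := by
  have hlI : Prime (l : ℤ) := Nat.prime_iff_prime_int.1 hl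
  by_cases hlc : (l : ℤ) ∣ c
  · -- all the forms are proportional
    have hnd : ∀ g i, ¬ (l : ℤ) ∣ ((A + F g i * C : ℕ) : ℤ) := by
      intro g i h
      exact hlI.not_isUnit ((hunit g i).isUnit_of_dvd' h hlc)
    set i0 : Fin K := ⟨0, hK⟩
    obtain ⟨u, v, huv⟩ := unit_of_isCoprime hl (hnd 0 i0)
    refine ⟨u * (1 - (B + F 0 i0 * E)), fun g i h => ?_⟩
    set α0 : ℤ := ((A + F 0 i0 * C : ℕ) : ℤ) with hα0
    set β0 : ℤ := B + F 0 i0 * E with hβ0
    set α : ℤ := ((A + F g i * C : ℕ) : ℤ) with hα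
    set β : ℤ := B + F g i * E with hβ
    have h1 : α0 * β - α * β0 = ((F g i : ℤ) - F 0 i0) * c := by
      rw [hα0, hβ0, hα, hβ, ← hBE]; push_cast; ring
    have h2 : (l : ℤ) ∣ α * (α0 * (u * (1 - β0)) + β0) := by
      have e : α * (α0 * (u * (1 - β0)) + β0) = α0 * (α * (u * (1 - β0)) + β) -
          (α0 * β - α * β0) := by ring
      rw [e, h1]
      exact dvd_sub (h.mul_left _) (hlc.mul_left _)
    rcases hlI.dvd_or_dvd h2 with h3 | h3
    · exact hnd g i h3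
    · have e : α0 * (u * (1 - β0)) + β0 = 1 - (v * (1 - β0)) * l := by
        have : u * α0 = 1 - v * l := by linarith
        calc α0 * (u * (1 - β0)) + β0 = (u * α0) * (1 - β0) + β0 := by ring
          _ = 1 - (v * (1 - β0)) * l := by rw [this]; ring
      rw [e] at h3
      have h4 : (l : ℤ) ∣ 1 := (dvd_sub_left (Dvd.intro_left _ rfl)).1 h3
      exact hlI.not_isUnit (isUnit_of_dvd_one h4)
  · by_cases hlC : l ∣ C
    · obtain ⟨ν, hν⟩ := hadm l hl hlC hlc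
      have hlCZ : (l : ℤ) ∣ (C : ℤ) := Int.natCast_dvd_natCast.2 hlC
      have hAE : ¬ (l : ℤ) ∣ (A : ℤ) * E := by
        intro h
        apply hlc
        rw [← hBE]
        exact dvd_sub h (hlCZ.mul_left _)
      have hA : ¬ (l : ℤ) ∣ (A : ℤ) := fun h => hAE (h.mul_right _)
      have hE : ¬ (l : ℤ) ∣ E := fun h => hAE (h.mul_left _)
      obtain ⟨u, v, huv⟩ := unit_of_isCoprime hl hA
      refine ⟨u * (ν * E - B), fun g i h => ?_⟩
      have e : ((A + F g i * C : ℕ) : ℤ) * (u * (ν * E - B)) + (B + F g i * E) =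
          E * (ν + F g i) + C * (F g i * u * (ν * E - B)) - l * (v * (ν * E - B)) := by
        push_cast
        have h1 : u * (A : ℤ) = 1 - v * l := by linarith
        calc ((A : ℤ) + F g i * C) * (u * (ν * E - B)) + (B + F g i * E) =
            (u * A) * (ν * E - B) + C * (F g i * u * (ν * E - B)) + (B + F g i * E) := by ring
          _ = _ := by rw [h1]; ring
      rw [e] at h
      have h2 : (l : ℤ) ∣ E * (ν + F g i) := by
        have h3 := (dvd_sub_left (Dvd.intro _ rfl)).1 h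
        exact (dvd_add_left (hlCZ.mul_right _)).1 h3
      rcases hlI.dvd_or_dvd h2 with h3 | h3
      · exact hE h3
      · exact hν g i h3
    · have hC : ¬ (l : ℤ) ∣ (C : ℤ) := fun h => hlC (Int.natCast_dvd_natCast.1 h)
      obtain ⟨u, v, huv⟩ := unit_of_isCoprime hl hC
      refine ⟨-(u * E), fun g i h => ?_⟩
      have h0 : (C : ℤ) * (-(u * E)) + E = l * (v * E) := by
        have : u * (C : ℤ) = 1 - v * l := by linarith
        calc (C : ℤ) * (-(u * E)) + E = -(u * C) * E + E := by ring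
          _ = _ := by rw [this]; ring
      have e : ((A + F g i * C : ℕ) : ℤ) * (-(u * E)) + (B + F g i * E) =
          (A * (-(u * E)) + B) + l * (F g i * (v * E)) := by
        push_cast
        calc ((A : ℤ) + F g i * C) * (-(u * E)) + (B + F g i * E) =
            (A * (-(u * E)) + B) + F g i * (C * (-(u * E)) + E) := by ring
          _ = _ := by rw [h0]; ring
      rw [e] at h
      have h1 : (l : ℤ) ∣ A * (-(u * E)) + B := (dvd_add_left (Dvd.intro _ rfl)).1 h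
      apply hlc
      have e2 : c = A * ((C : ℤ) * (-(u * E)) + E) - C * (A * (-(u * E)) + B) := by
        rw [← hBE]; ring
      rw [e2, h0]
      exact dvd_sub ((Dvd.intro _ rfl : (l : ℤ) ∣ l * (v * E)).mul_left _) (h1.mul_left _)

/-- the property of `K` in the master lemma -/
def MasterProp (K : ℕ) : Prop := ∀ (F : Fin 5 → Fin K → ℕ)
    (_ : ∀ x y : Fin 5 × Fin K, F x.1 x.2 = F y.1 y.2 → x = y) (A C : ℕ) (_ : 0 < A) (_ : 0 < C)
    (_ : Nat.Coprime A C) (c : ℤ) (_ : c ≠ 0)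
    (_ : ∀ g i, IsCoprime ((A + F g i * C : ℕ) : ℤ) c)
    (_ : ∀ l : ℕ, l.Prime → l ∣ C → ¬ (l : ℤ) ∣ c → ∃ ν : ℤ, ∀ g i, ¬ (l : ℤ) ∣ ν + F g i),
    ∃ x y : Fin 5 × Fin K, x.1 ≠ y.1 ∧ F x.1 x.2 < F y.1 y.2 ∧ ∃ G t a b : ℕ, 0 < G ∧ 0 < t ∧
      G = Nat.gcd (A + F x.1 x.2 * C) (A + F y.1 y.2 * C) ∧
      F y.1 y.2 - F x.1 x.2 = G * t ∧ G * a = A + F x.1 x.2 * C ∧ G * b = A + F y.1 y.2 * C ∧
      Nat.Coprime a b ∧ IsCoprime (a : ℤ) c ∧ IsCoprime (b : ℤ) c ∧ Big (Sol a b (t * c))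

/-- The master lemma. -/
theorem master (hQ : QuarterB) : ∃ K : ℕ, 1 ≤ K ∧ MasterProp K := by
  classical
  obtain ⟨K, hK1, hK⟩ := hQ 5
  refine ⟨K, hK1, ?_⟩
  intro F hinj A C hA hC hAC c hc hunit hadm
  obtain ⟨B, E, hBE⟩ : ∃ B E : ℤ, (A : ℤ) * E - B * C = c := by
    have h : IsCoprime (A : ℤ) (C : ℤ) := Nat.isCoprime_iff_coprime.2 hAC
    obtain ⟨x, y, hxy⟩ := h
    refine ⟨-(c * y), c * x, ?_⟩
    linear_combination (c : ℤ) * hxy
  obtain ⟨S, cc, hS, hBig⟩ := hK (fun g i => ((A + F g i * C : ℕ) : ℤ))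
    (fun g i => B + F g i * E) (fun g i => by positivity)
    (by
      intro x y hxy
      simp only [Prod.mk.injEq] at hxy
      apply hinj
      have h1 : A + F x.1 x.2 * C = A + F y.1 y.2 * C := by exact_mod_cast hxy.1
      have h2 : F x.1 x.2 * C = F y.1 y.2 * C := by omega
      exact Nat.eq_of_mul_eq_mul_right hC h2)
    (fun l hl => forms_admissible hK1 F A C B E c hBE hunit hadm l hl)
  have hS2 : 1 < S.card := by omega
  obtain ⟨g1, hg1, g2, hg2, hg12⟩ := Finset.one_lt_card.1 hS2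
  -- an ordered pair
  have key : ∀ x y : Fin 5 × Fin K, x.1 ≠ y.1 → F x.1 x.2 < F y.1 y.2 →
      Big {n : ℕ | (0 < ((A + F x.1 x.2 * C : ℕ) : ℤ) * n + (B + F x.1 x.2 * E) ∧
        Prime (((A + F x.1 x.2 * C : ℕ) : ℤ) * n + (B + F x.1 x.2 * E))) ∧
        (0 < ((A + F y.1 y.2 * C : ℕ) : ℤ) * n + (B + F y.1 y.2 * E) ∧
        Prime (((A + F y.1 y.2 * C : ℕ) : ℤ) * n + (B + F y.1 y.2 * E)))} →
      ∃ x y : Fin 5 × Fin K, x.1 ≠ y.1 ∧ F x.1 x.2 < F y.1 y.2 ∧ ∃ G t a b : ℕ, 0 < G ∧ 0 < t ∧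
      G = Nat.gcd (A + F x.1 x.2 * C) (A + F y.1 y.2 * C) ∧
      F y.1 y.2 - F x.1 x.2 = G * t ∧ G * a = A + F x.1 x.2 * C ∧ G * b = A + F y.1 y.2 * C ∧
      Nat.Coprime a b ∧ IsCoprime (a : ℤ) c ∧ IsCoprime (b : ℤ) c ∧ Big (Sol a b (t * c)) := by
    intro x y hxy hlt hB
    set f1 := F x.1 x.2 with hf1
    set f2 := F y.1 y.2 with hf2
    set G := Nat.gcd (A + f1 * C) (A + f2 * C) with hG
    have hα1 : 0 < A + f1 * C := by omega
    have hG0 : 0 < G := Nat.gcd_pos_of_pos_left _ hα1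
    have hGd1 : G ∣ A + f1 * C := Nat.gcd_dvd_left _ _
    have hGd2 : G ∣ A + f2 * C := Nat.gcd_dvd_right _ _
    -- `G` divides the difference
    have hGD : G ∣ f2 - f1 := by
      have hZ1 : (G : ℤ) ∣ (A : ℤ) + f1 * C := by exact_mod_cast hGd1
      have hZ2 : (G : ℤ) ∣ (A : ℤ) + f2 * C := by exact_mod_cast hGd2
      have h1 : (G : ℤ) ∣ ((f2 : ℤ) - f1) * C := by
        have := dvd_sub hZ2 hZ1
        have e : (A : ℤ) + f2 * C - (A + f1 * C) = ((f2 : ℤ) - f1) * C := by ring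
        rwa [e] at this
      have h2 : (G : ℤ) ∣ ((f2 : ℤ) - f1) * A := by
        have := dvd_sub (hZ1.mul_left (f2 : ℤ)) (hZ2.mul_left (f1 : ℤ))
        have e : (f2 : ℤ) * (A + f1 * C) - f1 * (A + f2 * C) = ((f2 : ℤ) - f1) * A := by ring
        rwa [e] at this
      obtain ⟨u, v, huv⟩ := Nat.isCoprime_iff_coprime.2 hAC
      have h3 : (G : ℤ) ∣ (f2 : ℤ) - f1 := by
        have e : (f2 : ℤ) - f1 = u * (((f2 : ℤ) - f1) * A) + v * (((f2 : ℤ) - f1) * C) := by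
          linear_combination (-((f2 : ℤ) - f1)) * huv
        rw [e]
        exact dvd_add (h2.mul_left _) (h1.mul_left _)
      have e : ((f2 - f1 : ℕ) : ℤ) = (f2 : ℤ) - f1 := by push_cast [hlt.le]; ring
      rw [← Int.natCast_dvd_natCast, e]
      exact h3
    obtain ⟨t, ht⟩ := hGD
    obtain ⟨a, ha⟩ := hGd1
    obtain ⟨b, hb⟩ := hGd2
    have ht0 : 0 < t := by
      rcases Nat.eq_zero_or_pos t with h | h
      · rw [h, mul_zero] at ht; omega
      · exact h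
    have hab : Nat.Coprime a b := by
      have h1 := Nat.coprime_div_gcd_div_gcd (m := A + f1 * C) (n := A + f2 * C) hG0
      rw [← hG] at h1
      rw [ha, hb, Nat.mul_div_cancel_left _ hG0, Nat.mul_div_cancel_left _ hG0] at h1
      exact h1
    have hac : IsCoprime (a : ℤ) c := by
      apply IsCoprime.of_isCoprime_of_dvd_left (hunit x.1 x.2)
      rw [← hf1, ha]
      exact Int.natCast_dvd_natCast.2 (Dvd.intro_left _ rfl)
    have hbc : IsCoprime (b : ℤ) c := by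
      apply IsCoprime.of_isCoprime_of_dvd_left (hunit y.1 y.2)
      rw [← hf2, hb]
      exact Int.natCast_dvd_natCast.2 (Dvd.intro_left _ rfl)
    refine ⟨x, y, hxy, hlt, G, t, a, b, hG0, ht0, hG, ht, ha.symm, hb.symm, hab, hac, hbc, ?_⟩
    refine hB.affine (A + f1 * C) (B + f1 * E) hα1
      (fun n => (((A + f1 * C : ℕ) : ℤ) * n + (B + f1 * E)).toNat) ?_ ?_
    · rintro n ⟨⟨h1, _⟩, _⟩
      exact Int.toNat_of_nonneg h1.le
    · rintro n ⟨⟨h1, h2⟩, h3, h4⟩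
      refine ⟨nat_prime_toNat h1 h2, (((A + f2 * C : ℕ) : ℤ) * n + (B + f2 * E)).toNat,
        nat_prime_toNat h3 h4, ?_⟩
      rw [Int.toNat_of_nonneg h3.le, Int.toNat_of_nonneg h1.le]
      have hGZ : (G : ℤ) ≠ 0 := by exact_mod_cast hG0.ne'
      apply mul_left_cancel₀ hGZ
      have ha' : (G : ℤ) * a = A + f1 * C := by exact_mod_cast ha.symm
      have hb' : (G : ℤ) * b = A + f2 * C := by exact_mod_cast hb.symm
      have ht' : (f2 : ℤ) - f1 = G * t := by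
        have : f2 = f1 + G * t := by omega
        rw [this]; push_cast; ring
      have e1 : (G : ℤ) * (a * (((A + f2 * C : ℕ) : ℤ) * n + (B + f2 * E)) -
          b * (((A + f1 * C : ℕ) : ℤ) * n + (B + f1 * E))) =
          (G * a) * (((A + f2 * C : ℕ) : ℤ) * n + (B + f2 * E)) -
          (G * b) * (((A + f1 * C : ℕ) : ℤ) * n + (B + f1 * E)) := by ring
      have e2 : (G : ℤ) * (t * c) = ((f2 : ℤ) - f1) * c := by rw [ht']; ring
      rw [e1, e2, ha', hb', ← hBE]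
      push_cast
      ring
  have hcase : F g1 (cc g1) ≠ F g2 (cc g2) := by
    intro h
    have := hinj (g1, cc g1) (g2, cc g2) h
    exact hg12 (congrArg Prod.fst this)
  rcases Nat.lt_or_gt_of_ne hcase with h | h
  · refine key (g1, cc g1) (g2, cc g2) hg12 h (Big.mono ?_ hBig)
    intro n hn
    rw [Set.mem_ofPred_eq] at hn ⊢
    exact ⟨hn g1 hg1, hn g2 hg2⟩
  · refine key (g2, cc g2) (g1, cc g1) hg12.symm h (Big.mono ?_ hBig)
    intro n hn
    rw [Set.mem_ofPred_eq] at hn ⊢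
    exact ⟨hn g2 hg2, hn g1 hg1⟩

end Pool.Agent.W76
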