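import Pool.Agent.W76.Seq
import Pool.Agent.W76.Count
import Pool.Agent.W76.Master

set_option autoImplicit false

/-! The equations `a p - (a + h) q = c` with `c` and `h` fixed. -/

namespace Pool.Agent.W76

open Finset Pool.Agent.H732R3.BigQ

/-- `(a, a + h, c)` satisfies the coprimality conditions and `a p - (a + h) q = c` has many prime
solutions -/
def GoodLine (c : ℤ) (h a : ℕ) : Prop :=
  Nat.Coprime a (a + h) ∧ IsCoprime (a : ℤ) c ∧ IsCoprime ((a + h : ℕ) : ℤ) c ∧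
    Big (Sol a (a + h) c)

/-- the local condition: for a prime `l ≥ 7` and `m` prime to `l` some residue avoids all the
`- F g i * m` -/
theorem avoidF {K Q : ℕ} (F : Fin 5 → Fin K → ℕ) (hF2 : ∀ g i, (Q : ℤ) ∣ (F g i : ℤ) - (g : ℕ))
    (hQs : ∀ l : ℕ, l.Prime → 5 ≤ l → l ≤ 5 * K → l ∣ Q) (l : ℕ) (hl : l.Prime) (h5 : 5 ≤ l)
    (h5' : l ≠ 5) (m : ℤ) (hm : ¬ (l : ℤ) ∣ m) : ∃ ν : ℤ, ∀ g i, ¬ (l : ℤ) ∣ ν + F g i * m := by
  have hlI : Prime (l : ℤ) := Nat.prime_iff_prime_int.1 hl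
  rcases Nat.lt_or_ge (5 * K) l with h | h
  · obtain ⟨ν, hν⟩ := exists_avoid (ι := Fin 5 × Fin K) l (by simpa using h)
      (fun x => (F x.1 x.2 : ℤ) * m)
    exact ⟨ν, fun g i => hν (g, i)⟩
  · refine ⟨m, fun g i hd => ?_⟩
    have h1 : (l : ℤ) ∣ (F g i : ℤ) - (g : ℕ) :=
      (Int.natCast_dvd_natCast.2 (hQs l hl h5 h)).trans (hF2 g i)
    have h2 : (l : ℤ) ∣ m * (1 + (g : ℕ)) := by
      have := dvd_sub hd (h1.mul_right m)
      have e : m + (F g i : ℤ) * m - ((F g i : ℤ) - (g : ℕ)) * m = m * (1 + (g : ℕ)) := by ring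
      rwa [e] at this
    rcases hlI.dvd_or_dvd h2 with h3 | h3
    · exact hm h3
    · have h4 : l ∣ 1 + (g : ℕ) := by exact_mod_cast h3
      have h6 := Nat.le_of_dvd (by omega) h4
      have h7 := g.2
      omega

theorem line_core {K : ℕ} (hK1 : 1 ≤ K) (hM : MasterProp K) (Q : ℕ)
    (hQs : ∀ l : ℕ, l.Prime → 5 ≤ l → l ≤ 5 * K → l ∣ Q) (F : Fin 5 → Fin K → ℕ)
    (hF2 : ∀ g i, (Q : ℤ) ∣ (F g i : ℤ) - (g : ℕ))
    (hF3 : ∀ x y : Fin 5 × Fin K, F x.1 x.2 = F y.1 y.2 → x = y)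
    (hF4 : ∀ x y : Fin 5 × Fin K, x.1 ≠ y.1 → ((F x.1 x.2 : ℤ) - F y.1 y.2) ∣ F x.1 x.2) (r : ℕ) :
    ∃ (δ : ℝ) (X₀ : ℕ), 0 < δ ∧ ∀ (c : ℤ) (h : ℕ), c ≠ 0 → 0 < h →
      (∀ l : ℕ, l.Prime → l ∣ c.natAbs * h → 5 ≤ l) → (5 ∣ c.natAbs ↔ 5 ∣ h) →
      (c.natAbs * h).primeFactors.card ≤ r →
      (∀ l : ℕ, l.Prime → l ∣ c.natAbs * h → ∀ x y : Fin 5 × Fin K, x.1 ≠ y.1 →
        ¬ (l : ℤ) ∣ (F x.1 x.2 : ℤ) - F y.1 y.2) →
      ∀ X : ℕ, X₀ * h ≤ X → ∀ S : Finset ℕ, (∀ a : ℕ, 1 ≤ a → a ≤ X → GoodLine c h a → a ∈ S) →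
        δ * X ≤ (S.card : ℝ) := by
  classical
  -- the product of the cross differences
  set D0 : ℕ := ∏ z ∈ (univ : Finset ((Fin 5 × Fin K) × (Fin 5 × Fin K))).filter
    (fun z => z.1.1 ≠ z.2.1), ((F z.1.1 z.1.2 : ℤ) - F z.2.1 z.2.2).natAbs with hD0
  have hne : ∀ x y : Fin 5 × Fin K, x.1 ≠ y.1 → (F x.1 x.2 : ℤ) - F y.1 y.2 ≠ 0 := by
    intro x y hxy h
    have h1 : F x.1 x.2 = F y.1 y.2 := by
      have : (F x.1 x.2 : ℤ) = F y.1 y.2 := by linarith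
      exact_mod_cast this
    exact hxy (congrArg Prod.fst (hF3 x y h1))
  have hD0pos : 0 < D0 := by
    apply prod_pos
    intro z hz
    exact Int.natAbs_pos.2 (hne z.1 z.2 (mem_filter.1 hz).2)
  have hdD : ∀ x y : Fin 5 × Fin K, x.1 ≠ y.1 → ((F x.1 x.2 : ℤ) - F y.1 y.2) ∣ (D0 : ℤ) := by
    intro x y hxy
    rw [Int.dvd_natCast]
    exact dvd_prod_of_mem (fun z : (Fin 5 × Fin K) × (Fin 5 × Fin K) =>
      ((F z.1.1 z.1.2 : ℤ) - F z.2.1 z.2.2).natAbs) (a := (x, y)) (mem_filter.2 ⟨mem_univ _, hxy⟩)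
  set Fm : ℕ := ∑ x : Fin 5 × Fin K, F x.1 x.2 with hFm
  have hFle : ∀ x : Fin 5 × Fin K, F x.1 x.2 ≤ Fm := fun x =>
    Finset.single_le_sum (f := fun x : Fin 5 × Fin K => F x.1 x.2) (fun _ _ => Nat.zero_le _)
      (mem_univ x)
  set m0 : ℕ := r * (5 * K + 1) with hm0
  set L0 : ℕ := 4 * m0 + 5 * K + 5 with hL0
  set Qm : ℕ := D0 * L0 ^ r with hQm
  have hL0pos : 0 < L0 := by omega
  have hQmpos : 0 < Qm := Nat.mul_pos hD0pos (pow_pos hL0pos _)
  have hK0 : (0 : ℝ) < K := by exact_mod_cast hK1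
  have hQmR : (0 : ℝ) < Qm := by exact_mod_cast hQmpos
  refine ⟨1 / (400 * (Qm : ℝ) * (K : ℝ) ^ 2), 2 * Fm + 8 * Qm + 16 * m0 * Qm, by positivity, ?_⟩
  intro c h hc hh hch5 h55 hr hbad X hX S hS
  have hcpos : 0 < c.natAbs := Int.natAbs_pos.2 hc
  set P := (c.natAbs * h).primeFactors with hP
  have hPmem : ∀ l ∈ P, l.Prime ∧ l ∣ c.natAbs * h := fun l hl =>
    ⟨(Nat.mem_primeFactors.1 hl).1, (Nat.mem_primeFactors.1 hl).2.1⟩
  have hPin : ∀ l : ℕ, l.Prime → l ∣ c.natAbs * h → l ∈ P := fun l hl hd =>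
    Nat.mem_primeFactors.2 ⟨hl, hd, (Nat.mul_pos hcpos hh).ne'⟩
  set Ps := P.filter (fun l => l ≤ L0) with hPs
  set R := ∏ l ∈ Ps, l with hR
  have hRpos : 0 < R := prod_pos fun l hl => (hPmem l (mem_filter.1 hl).1).1.pos
  have hRle : R ≤ L0 ^ r := by
    calc R ≤ L0 ^ Ps.card := Finset.prod_le_pow_card _ _ _ (fun l hl => (mem_filter.1 hl).2)
      _ ≤ L0 ^ r := Nat.pow_le_pow_right hL0pos ((card_filter_le _ _).trans hr)
  -- `l ∣ c h` implies `l ∤ D0`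
  have hlD0 : ∀ l : ℕ, l.Prime → l ∣ c.natAbs * h → ¬ l ∣ D0 := by
    intro l hl hlc hd
    obtain ⟨z, hz, h7⟩ := (hl.prime.dvd_finsetProd_iff _).1 hd
    exact hbad l hl hlc z.1 z.2 (mem_filter.1 hz).2 (Int.natCast_dvd.2 h7)
  set Q1 := D0 * R with hQ1
  have hQ1pos : 0 < Q1 := Nat.mul_pos hD0pos hRpos
  have hQ1le : Q1 ≤ Qm := Nat.mul_le_mul_left _ hRle
  -- the residues
  have hρ : ∀ l ∈ Ps, ∃ ρ : ℕ, (l ∣ h → (ρ : ℤ) ≡ 1 [ZMOD l]) ∧
      (¬ l ∣ h → ∀ g i, ¬ (l : ℤ) ∣ ρ + F g i * h) := by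
    intro l hl
    obtain ⟨hlp, hlc⟩ := hPmem l (mem_filter.1 hl).1
    by_cases hlh : l ∣ h
    · exact ⟨1, fun _ => by norm_num, fun h' => absurd hlh h'⟩
    · have h5 := hch5 l hlp hlc
      have hlc' : l ∣ c.natAbs := ((hlp.dvd_mul).1 hlc).resolve_right hlh
      have hl5 : l ≠ 5 := by
        rintro rfl
        exact hlh (h55.1 hlc')
      obtain ⟨ν, hν⟩ := avoidF F hF2 hQs l hlp h5 hl5 (h : ℤ)
        (fun h' => hlh (Int.natCast_dvd_natCast.1 h'))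
      have hl0 : (l : ℤ) ≠ 0 := by exact_mod_cast hlp.ne_zero
      refine ⟨(ν % l).toNat, fun h' => absurd h' hlh, fun _ g i hd => ?_⟩
      apply hν g i
      rw [Int.toNat_of_nonneg (Int.emod_nonneg _ hl0)] at hd
      have h1 : (l : ℤ) ∣ ν - ν % l := Int.dvd_self_sub_emod
      have := dvd_add hd h1
      have e : ν % l + F g i * h + (ν - ν % l) = ν + F g i * h := by ring
      rwa [e] at this
  choose! ρ hρ1 hρ2 using hρ
  have hpair : Set.Pairwise (Ps : Set ℕ) (Function.onFun Nat.Coprime (fun p : ℕ => p)) := by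
    intro p hp q hq hpq
    exact (Nat.coprime_primes (hPmem p (mem_filter.1 hp).1).1 (hPmem q (mem_filter.1 hq).1).1).2 hpq
  obtain ⟨t0, ht0⟩ := Nat.chineseRemainderOfFinset ρ (fun p => p) Ps
    (fun i hi => (hPmem i (mem_filter.1 hi).1).1.ne_zero) hpair
  have hDR : Nat.Coprime D0 R := by
    rw [hR]
    apply Nat.Coprime.prod_right
    intro l hl
    obtain ⟨hlp, hlc⟩ := hPmem l (mem_filter.1 hl).1
    exact ((Nat.Prime.coprime_iff_not_dvd hlp).2 (hlD0 l hlp hlc)).symm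
  have hA0lt := Nat.chineseRemainder_lt_mul hDR 0 t0 hD0pos.ne' hRpos.ne'
  obtain ⟨hA01, hA02⟩ := (Nat.chineseRemainder hDR 0 t0).2
  set A1 : ℕ := (Nat.chineseRemainder hDR 0 t0 : ℕ) with hA1
  set A0 := A1 + Q1 with hA0
  have hA0le : A0 ≤ 2 * Q1 := by omega
  have hA0D : D0 ∣ A0 := dvd_add (Nat.modEq_zero_iff_dvd.1 hA01) (Dvd.intro _ rfl)
  have hA0l : ∀ l ∈ Ps, A0 ≡ ρ l [MOD l] := by
    intro l hl
    have h1 : l ∣ R := dvd_prod_of_mem (fun l => l) hl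
    have h2 : A1 ≡ t0 [MOD l] := hA02.of_dvd h1
    have h3 : Q1 ≡ 0 [MOD l] := Nat.modEq_zero_iff_dvd.2 (h1.mul_left _)
    have h4 : A0 ≡ t0 + 0 [MOD l] := h2.add h3
    rw [add_zero] at h4
    exact h4.trans (ht0 l hl)
  -- the large primes
  set Pl := P.filter (fun l => L0 < l) with hPl
  have hPlcard : Pl.card ≤ r := (card_filter_le _ _).trans hr
  have hPlQ1 : ∀ l ∈ Pl, ¬ l ∣ Q1 := by
    intro l hl hd
    rw [hPl, mem_filter] at hl
    obtain ⟨hlp, hlc⟩ := hPmem l hl.1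
    rcases (hlp.dvd_mul).1 hd with h1 | h1
    · exact hlD0 l hlp hlc h1
    · obtain ⟨l', hl', h2⟩ := (hlp.prime.dvd_finsetProd_iff _).1 h1
      have hl'' := mem_filter.1 hl'
      have h3 := (Nat.prime_dvd_prime_iff_eq hlp (hPmem l' hl''.1).1).1 h2
      have := hl''.2
      omega
  set Z := X / (4 * Q1) with hZ
  set wt : Option (Fin 5 × Fin K) → ℕ := fun o => o.elim 0 (fun x => F x.1 x.2) with hwt
  set E : ℕ × Option (Fin 5 × Fin K) → Finset ℕ := fun u =>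
    (range Z).filter (fun z => u.1 ∣ (A0 + wt u.2 * h) + Q1 * z) with hE
  set Bad := (Pl ×ˢ (univ : Finset (Option (Fin 5 × Fin K)))).biUnion E with hBad
  have hBadcard : Bad.card ≤ m0 * (Z / L0 + 1) := by
    have h1 : ∀ u ∈ (Pl ×ˢ (univ : Finset (Option (Fin 5 × Fin K)))), (E u).card ≤ Z / L0 + 1 := by
      intro u hu
      rw [mem_product] at hu
      have hlp := (hPmem u.1 (mem_filter.1 hu.1).1).1
      have h2 := count_class (u := A0 + wt u.2 * h) (Z := Z) hlp (hPlQ1 u.1 hu.1)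
      refine h2.trans ?_
      have h3 : Z / u.1 ≤ Z / L0 := Nat.div_le_div_left (mem_filter.1 hu.1).2.le hL0pos
      omega
    calc Bad.card ≤ ∑ u ∈ (Pl ×ˢ (univ : Finset (Option (Fin 5 × Fin K)))), (E u).card :=
          card_biUnion_le
      _ ≤ ∑ _u ∈ (Pl ×ˢ (univ : Finset (Option (Fin 5 × Fin K)))), (Z / L0 + 1) :=
          sum_le_sum h1
      _ = Pl.card * (5 * K + 1) * (Z / L0 + 1) := by
          rw [sum_const, card_product]; simp
      _ ≤ r * (5 * K + 1) * (Z / L0 + 1) := by gcongr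
  have hXbig : (2 * Fm + 8 * Qm + 16 * m0 * Qm) ≤ X := by
    refine le_trans ?_ hX
    exact Nat.le_mul_of_pos_right _ hh
  have hZm : 4 * m0 ≤ Z := by
    rw [hZ, Nat.le_div_iff_mul_le (by omega)]
    have : 4 * m0 * (4 * Q1) ≤ 16 * m0 * Qm := by
      calc 4 * m0 * (4 * Q1) = 16 * m0 * Q1 := by ring
        _ ≤ 16 * m0 * Qm := Nat.mul_le_mul_left _ hQ1le
    omega
  have hBad2 : 2 * Bad.card ≤ Z := by
    have h1 : 4 * (m0 * (Z / L0)) ≤ Z := by
      calc 4 * (m0 * (Z / L0)) = (4 * m0) * (Z / L0) := by ring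
        _ ≤ L0 * (Z / L0) := Nat.mul_le_mul_right _ (by omega)
        _ ≤ Z := Nat.mul_div_le _ _
    have h2 : m0 * (Z / L0 + 1) = m0 * (Z / L0) + m0 := by ring
    omega
  set Good := (range Z).filter (fun z => z ∉ Bad) with hGood
  have hGoodcard : Z ≤ 2 * Good.card := by
    have h1 := card_filter_add_card_filter_not (s := range Z) (fun z => z ∈ Bad)
    have h2 : ((range Z).filter (fun z => z ∈ Bad)).card ≤ Bad.card :=
      card_le_card (fun z hz => (mem_filter.1 hz).2)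
    rw [card_range] at h1
    have h3 : ((range Z).filter (fun z => z ∉ Bad)).card = Good.card := rfl
    omega
  -- each good `z` gives a pair
  have hmain : ∀ z ∈ Good, ∃ (a : ℕ) (x y : Fin 5 × Fin K), 1 ≤ a ∧ a ≤ X ∧ GoodLine c h a ∧
      F x.1 x.2 < F y.1 y.2 ∧ (F y.1 y.2 - F x.1 x.2) * a = (A0 + Q1 * z) + F x.1 x.2 * h := by
    intro z hz
    rw [hGood, mem_filter, mem_range] at hz
    obtain ⟨hzZ, hzB⟩ := hz
    have hzB' : ∀ l ∈ Pl, ∀ o, ¬ l ∣ (A0 + wt o * h) + Q1 * z := by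
      intro l hl o hd
      apply hzB
      rw [hBad, mem_biUnion]
      exact ⟨(l, o), mem_product.2 ⟨hl, mem_univ _⟩, mem_filter.2 ⟨mem_range.2 hzZ, hd⟩⟩
    set A := A0 + Q1 * z with hA
    have hApos : 0 < A := by omega
    have hAD : D0 ∣ A := dvd_add hA0D ((Dvd.intro _ rfl : D0 ∣ Q1).mul_right _)
    have hAl : ∀ l ∈ Ps, A ≡ ρ l [MOD l] := by
      intro l hl
      have h1 : l ∣ R := dvd_prod_of_mem (fun l => l) hl
      have h3 : Q1 * z ≡ 0 [MOD l] := Nat.modEq_zero_iff_dvd.2 ((h1.mul_left _).mul_right _)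
      have h4 : A ≡ ρ l + 0 [MOD l] := (hA0l l hl).add h3
      simpa using h4
    have hsplit : ∀ l ∈ P, l ∈ Ps ∨ l ∈ Pl := by
      intro l hl
      rcases Nat.lt_or_ge L0 l with h1 | h1
      · exact Or.inr (mem_filter.2 ⟨hl, h1⟩)
      · exact Or.inl (mem_filter.2 ⟨hl, h1⟩)
    -- `A` is prime to `h`
    have hAh : ∀ l : ℕ, l.Prime → l ∣ h → ¬ l ∣ A := by
      intro l hl hlh hlA
      rcases hsplit l (hPin l hl (hlh.mul_left _)) with h1 | h1
      · have h2 := hρ1 l h1 hlh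
        have h3 : (A : ℤ) ≡ (ρ l : ℤ) [ZMOD l] := by exact_mod_cast (Int.natCast_modEq_iff.2 (hAl l h1))
        have h4 : (l : ℤ) ∣ 1 - (A : ℤ) := (Int.modEq_iff_dvd.1 (h3.trans h2))
        have h5 : (l : ℤ) ∣ 1 := (dvd_sub_left (Int.natCast_dvd_natCast.2 hlA)).1 h4
        exact (Nat.prime_iff_prime_int.1 hl).not_isUnit (isUnit_of_dvd_one h5)
      · apply hzB' l h1 none
        simpa [hwt, hA] using hlA
    have hAC : Nat.Coprime A h := by
      by_contra hnc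
      obtain ⟨l, hl, h1, h2⟩ := Nat.Prime.not_coprime_iff_dvd.1 hnc
      exact hAh l hl h2 h1
    have hunit : ∀ g i, IsCoprime ((A + F g i * h : ℕ) : ℤ) c := by
      intro g i
      rw [Int.isCoprime_iff_gcd_eq_one]
      have e : Int.gcd ((A + F g i * h : ℕ) : ℤ) c = Nat.gcd (A + F g i * h) c.natAbs := by
        rw [Int.gcd, Int.natAbs_natCast]
      rw [e]
      by_contra hnc
      obtain ⟨l, hl, h1, h2⟩ := Nat.Prime.not_coprime_iff_dvd.1 hnc
      have hlP : l ∈ P := hPin l hl (h2.mul_right _)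
      by_cases hlh : l ∣ h
      · apply hAh l hl hlh
        exact (Nat.dvd_add_left (hlh.mul_left _)).1 h1
      · rcases hsplit l hlP with h3 | h3
        · apply hρ2 l h3 hlh g i
          have h4 : (l : ℤ) ∣ (ρ l : ℤ) - A := by
            have := Int.natCast_modEq_iff.2 (hAl l h3)
            exact Int.modEq_iff_dvd.1 this
          have h5 : (l : ℤ) ∣ (A : ℤ) + F g i * h := by exact_mod_cast Int.natCast_dvd_natCast.2 h1
          have := dvd_add h4 h5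
          have e : (ρ l : ℤ) - A + (A + F g i * h) = ρ l + F g i * h := by ring
          rwa [e] at this
        · apply hzB' l h3 (some (g, i))
          have e : A0 + wt (some (g, i)) * h + Q1 * z = A + F g i * h := by
            simp only [hwt, Option.elim_some, hA]; ring
          rw [e]; exact h1
    have hadm : ∀ l : ℕ, l.Prime → l ∣ h → ¬ (l : ℤ) ∣ c → ∃ ν : ℤ, ∀ g i, ¬ (l : ℤ) ∣ ν + F g i := by
      intro l hl hlh hlc
      have h5 := hch5 l hl (hlh.mul_left _)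
      have hl5 : l ≠ 5 := by
        rintro rfl
        exact hlc (Int.natCast_dvd.2 (h55.2 hlh))
      obtain ⟨ν, hν⟩ := avoidF F hF2 hQs l hl h5 hl5 1
        (fun h' => (Nat.prime_iff_prime_int.1 hl).not_isUnit (isUnit_of_dvd_one h'))
      exact ⟨ν, fun g i => by simpa using hν g i⟩
    obtain ⟨x, y, hxy, hlt, G, t, a, b, hG0, ht0', hG, hGt, hGa, hGb, hab, hac, hbc, hBigS⟩ :=
      hM F hF3 A h hApos hh hAC c hc hunit hadm
    -- `t = 1`
    have hDdiv : (F y.1 y.2 - F x.1 x.2) ∣ G := by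
      have e1 : ((F y.1 y.2 - F x.1 x.2 : ℕ) : ℤ) = (F y.1 y.2 : ℤ) - F x.1 x.2 := by
        push_cast [hlt.le]; ring
      have h1 : ((F y.1 y.2 - F x.1 x.2 : ℕ) : ℤ) ∣ (A : ℤ) := by
        rw [e1]
        exact (hdD y x (Ne.symm hxy)).trans (Int.natCast_dvd_natCast.2 hAD)
      have h2 : ((F y.1 y.2 - F x.1 x.2 : ℕ) : ℤ) ∣ (F y.1 y.2 : ℤ) := by
        rw [e1]
        exact hF4 y x (Ne.symm hxy)
      have h3 : ((F y.1 y.2 - F x.1 x.2 : ℕ) : ℤ) ∣ (F x.1 x.2 : ℤ) := by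
        have e2 : (F x.1 x.2 : ℤ) = F y.1 y.2 - ((F y.1 y.2 - F x.1 x.2 : ℕ) : ℤ) := by
          rw [e1]; ring
        rw [e2]
        exact dvd_sub h2 dvd_rfl
      have h1' := Int.natCast_dvd_natCast.1 h1
      have h2' := Int.natCast_dvd_natCast.1 h2
      have h3' := Int.natCast_dvd_natCast.1 h3
      rw [hG]
      exact Nat.dvd_gcd (dvd_add h1' (h3'.mul_right _)) (dvd_add h1' (h2'.mul_right _))
    have ht1 : t = 1 := by
      rw [hGt] at hDdiv
      have h1 : G * t ≤ G := Nat.le_of_dvd hG0 hDdiv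
      have h2 : t ≤ 1 := by
        by_contra h3
        push Not at h3
        nlinarith
      omega
    subst ht1
    rw [mul_one] at hGt
    have hba : b = a + h := by
      have h1 : G * b = G * (a + h) := by
        rw [hGb, mul_add, hGa, ← hGt, Nat.sub_mul]
        have : F x.1 x.2 * h ≤ F y.1 y.2 * h := Nat.mul_le_mul_right _ hlt.le
        omega
      exact Nat.eq_of_mul_eq_mul_left hG0 h1
    subst hba
    have ha1 : 1 ≤ a := by
      rcases Nat.eq_zero_or_pos a with h1 | h1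
      · rw [h1, mul_zero] at hGa; omega
      · exact h1
    have haX : a ≤ X := by
      have h1 : a ≤ G * a := Nat.le_mul_of_pos_left _ hG0
      rw [hGa] at h1
      have h2 : F x.1 x.2 * h ≤ Fm * h := Nat.mul_le_mul_right _ (hFle x)
      have h3 : Fm * h * 2 ≤ X := by
        refine le_trans ?_ hX
        calc Fm * h * 2 = (2 * Fm) * h := by ring
          _ ≤ _ := Nat.mul_le_mul_right _ (by omega)
      have h4 : A ≤ Q1 * (Z + 2) := by
        have : Q1 * z ≤ Q1 * Z := Nat.mul_le_mul_left _ hzZ.le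
        calc A = A0 + Q1 * z := rfl
          _ ≤ 2 * Q1 + Q1 * Z := by omega
          _ = Q1 * (Z + 2) := by ring
      have h5 : 4 * (Q1 * Z) ≤ X := by
        calc 4 * (Q1 * Z) = (4 * Q1) * (X / (4 * Q1)) := by rw [hZ]; ring
          _ ≤ X := Nat.mul_div_le _ _
      have h6 : 8 * Q1 ≤ X := by
        have : 8 * Q1 ≤ 8 * Qm := Nat.mul_le_mul_left _ hQ1le
        omega
      have h7 : Q1 * (Z + 2) = Q1 * Z + 2 * Q1 := by ring
      omega
    refine ⟨a, x, y, ha1, haX, ⟨hab, hac, hbc, ?_⟩, hlt, ?_⟩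
    · simpa using hBigS
    · rw [hGt, hGa]
  haveI : Nonempty (Fin 5 × Fin K) := ⟨(0, ⟨0, hK1⟩)⟩
  choose! a x y ha1 haX hgood hlt heq using hmain
  -- counting
  have hinj : Set.InjOn (fun z => (a z, (x z, y z))) (Good : Set ℕ) := by
    intro z hz z' hz' h1
    simp only [Prod.mk.injEq] at h1
    obtain ⟨e1, e2, e3⟩ := h1
    have h2 := heq z hz
    have h3 := heq z' hz'
    rw [e1, e2, e3, h3] at h2
    have h4 : Q1 * z' = Q1 * z := by omega
    exact (Nat.eq_of_mul_eq_mul_left hQ1pos h4).symm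
  have hmaps : ∀ z ∈ Good, (a z, (x z, y z)) ∈
      S ×ˢ (univ : Finset ((Fin 5 × Fin K) × (Fin 5 × Fin K))) := by
    intro z hz
    exact mem_product.2 ⟨hS _ (ha1 z hz) (haX z hz) (hgood z hz), mem_univ _⟩
  have hcard := card_le_card_of_injOn _ hmaps hinj
  rw [card_product] at hcard
  have hcu : (univ : Finset ((Fin 5 × Fin K) × (Fin 5 × Fin K))).card = 25 * K ^ 2 := by
    simp [card_univ, Fintype.card_prod, Fintype.card_fin]; ring
  rw [hcu] at hcard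
  have hZX : (X : ℝ) ≤ 8 * Qm * Z := by
    have h1 : (X : ℝ) < 4 * Q1 * (Z + 1) := by
      have h2 := Nat.lt_mul_div_succ X (show 0 < 4 * Q1 by omega)
      have h3 : X < 4 * Q1 * (Z + 1) := h2
      exact_mod_cast h3
    have h2 : (1 : ℝ) ≤ Z := by
      have : 1 ≤ Z := by
        rw [hZ, Nat.le_div_iff_mul_le (by omega)]
        have : 8 * Q1 ≤ 8 * Qm := Nat.mul_le_mul_left _ hQ1le
        omega
      exact_mod_cast this
    have h3 : (Q1 : ℝ) ≤ Qm := by exact_mod_cast hQ1le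
    have h4 : (0 : ℝ) < Q1 := by exact_mod_cast hQ1pos
    nlinarith
  have h1 : (Z : ℝ) ≤ 2 * (S.card * (25 * (K : ℝ) ^ 2)) := by
    have : Z ≤ 2 * (S.card * (25 * K ^ 2)) := hGoodcard.trans (Nat.mul_le_mul_left _ hcard)
    exact_mod_cast this
  rw [one_div, inv_mul_le_iff₀ (by positivity)]
  calc (X : ℝ) ≤ 8 * Qm * Z := hZX
    _ ≤ 8 * Qm * (2 * (S.card * (25 * (K : ℝ) ^ 2))) := by gcongr
    _ = 400 * Qm * (K : ℝ) ^ 2 * S.card := by ring

end Pool.Agent.W76
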