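import Pool.Agent.W76.Line

set_option autoImplicit false

/-! The equations `a p - (a + h) q = c`: uniformity in `c` and `h`. -/

namespace Pool.Agent.W76

open Finset Pool.Agent.H732R3.BigQ

theorem cross_not_dvd {K Q : ℕ} (F : Fin 5 → Fin K → ℕ)
    (hF2 : ∀ g i, (Q : ℤ) ∣ (F g i : ℤ) - (g : ℕ)) (l : ℕ) (hlQ : l ∣ Q)
    (hl5 : 5 ≤ l) (x y : Fin 5 × Fin K) (hxy : x.1 ≠ y.1) :
    ¬ (l : ℤ) ∣ (F x.1 x.2 : ℤ) - F y.1 y.2 := by
  intro hd
  have hlQZ : (l : ℤ) ∣ Q := Int.natCast_dvd_natCast.2 hlQ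
  have h1 := hlQZ.trans (hF2 x.1 x.2)
  have h2 := hlQZ.trans (hF2 y.1 y.2)
  have h3 : (l : ℤ) ∣ ((x.1 : ℕ) : ℤ) - ((y.1 : ℕ) : ℤ) := by
    have := dvd_sub hd (dvd_sub h1 h2)
    have e : (F x.1 x.2 : ℤ) - F y.1 y.2 - ((F x.1 x.2 : ℤ) - (x.1 : ℕ) -
        ((F y.1 y.2 : ℤ) - (y.1 : ℕ))) = ((x.1 : ℕ) : ℤ) - ((y.1 : ℕ) : ℤ) := by ring
    rwa [e] at this
  have hx := x.1.2
  have hy := y.1.2
  have h4 : |((x.1 : ℕ) : ℤ) - ((y.1 : ℕ) : ℤ)| < l := by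
    rw [abs_lt]; constructor <;> omega
  have h5 := Int.eq_zero_of_abs_lt_dvd h3 h4
  exact hxy (Fin.ext (by omega))

theorem line_ind {K : ℕ} (hK1 : 1 ≤ K) (hM : MasterProp K) (r n : ℕ) :
    ∀ Q : ℕ, 0 < Q → (∀ l : ℕ, l.Prime → l ∣ Q → 5 ≤ l) →
    (∀ l : ℕ, l.Prime → 5 ≤ l → l ≤ 5 * K → l ∣ Q) →
    ∃ (δ : ℝ) (X₀ : ℕ), 0 < δ ∧ ∀ (c : ℤ) (h : ℕ), c ≠ 0 → 0 < h →
      (∀ l : ℕ, l.Prime → l ∣ c.natAbs * h → 5 ≤ l) → (5 ∣ c.natAbs ↔ 5 ∣ h) →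
      (c.natAbs * h).primeFactors.card ≤ r →
      ((c.natAbs * h).primeFactors.filter (fun l => ¬ l ∣ Q)).card ≤ n →
      ∀ X : ℕ, X₀ * h ≤ X → ∀ S : Finset ℕ, (∀ a : ℕ, 1 ≤ a → a ≤ X → GoodLine c h a → a ∈ S) →
        δ * X ≤ (S.card : ℝ) := by
  classical
  induction n with
  | zero =>
    intro Q hQ hQ5 hQs
    obtain ⟨F, hF1, hF2, hF3, hF4⟩ := exists_five Q hQ hQ5 K
    obtain ⟨δ, X₀, hδ, H⟩ := line_core hK1 hM Q hQs F hF2 hF3 hF4 r
    refine ⟨δ, X₀, hδ, ?_⟩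
    intro c h hc hh hch5 h55 hr hn X hX S hS
    apply H c h hc hh hch5 h55 hr _ X hX S hS
    intro l hl hlc x y hxy
    have hlQ : l ∣ Q := by
      by_contra hlQ
      have h1 : l ∈ (c.natAbs * h).primeFactors.filter (fun l => ¬ l ∣ Q) :=
        mem_filter.2 ⟨Nat.mem_primeFactors.2 ⟨hl, hlc,
          (Nat.mul_pos (Int.natAbs_pos.2 hc) hh).ne'⟩, hlQ⟩
      have := card_pos.2 ⟨l, h1⟩
      omega
    exact cross_not_dvd F hF2 l hlQ (hch5 l hl hlc) x y hxy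
  | succ n ih =>
    intro Q hQ hQ5 hQs
    obtain ⟨F, hF1, hF2, hF3, hF4⟩ := exists_five Q hQ hQ5 K
    obtain ⟨δ1, X1, hδ1, H1⟩ := line_core hK1 hM Q hQs F hF2 hF3 hF4 r
    set D : ℕ := ∏ z ∈ (univ : Finset ((Fin 5 × Fin K) × (Fin 5 × Fin K))).filter
      (fun z => z.1.1 ≠ z.2.1), ((F z.1.1 z.1.2 : ℤ) - F z.2.1 z.2.2).natAbs with hD
    have hDpos : 0 < D := by
      apply prod_pos
      intro z hz
      apply Int.natAbs_pos.2
      intro h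
      have h1 : F z.1.1 z.1.2 = F z.2.1 z.2.2 := by
        have : (F z.1.1 z.1.2 : ℤ) = F z.2.1 z.2.2 := by linarith
        exact_mod_cast this
      exact (mem_filter.1 hz).2 (congrArg Prod.fst (hF3 z.1 z.2 h1))
    set Q2 : ℕ := ∏ l ∈ D.primeFactors.filter (fun l => 5 ≤ l), l with hQ2
    have hQ2pos : 0 < Q2 := prod_pos fun l hl =>
      (Nat.mem_primeFactors.1 (mem_filter.1 hl).1).1.pos
    obtain ⟨δ2, X2, hδ2, H2⟩ := ih (Q * Q2) (Nat.mul_pos hQ hQ2pos) (by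
      intro l hl hd
      rcases (hl.dvd_mul).1 hd with h | h
      · exact hQ5 l hl h
      · obtain ⟨l', hl', h2⟩ := (hl.prime.dvd_finsetProd_iff _).1 h
        have hl'' := mem_filter.1 hl'
        rw [(Nat.prime_dvd_prime_iff_eq hl (Nat.mem_primeFactors.1 hl''.1).1).1 h2]
        exact hl''.2) (fun l hl h5 h6 => (hQs l hl h5 h6).mul_right _)
    refine ⟨min δ1 δ2, max X1 X2, lt_min hδ1 hδ2, ?_⟩
    intro c h hc hh hch5 h55 hr hn X hX S hS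
    have hX0 : (0 : ℝ) ≤ X := Nat.cast_nonneg X
    by_cases hb : ∀ l : ℕ, l.Prime → l ∣ c.natAbs * h → ∀ x y : Fin 5 × Fin K, x.1 ≠ y.1 →
        ¬ (l : ℤ) ∣ (F x.1 x.2 : ℤ) - F y.1 y.2
    · refine le_trans (mul_le_mul_of_nonneg_right (min_le_left _ _) hX0) ?_
      exact H1 c h hc hh hch5 h55 hr hb X
        ((Nat.mul_le_mul_right _ (le_max_left _ _)).trans hX) S hS
    · push Not at hb
      obtain ⟨l0, hl0, hl0c, x, y, hxy, hd⟩ := hb
      refine le_trans (mul_le_mul_of_nonneg_right (min_le_right _ _) hX0) ?_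
      refine H2 c h hc hh hch5 h55 hr ?_ X
        ((Nat.mul_le_mul_right _ (le_max_right _ _)).trans hX) S hS
      have h5 := hch5 l0 hl0 hl0c
      have hl0Q : ¬ l0 ∣ Q := fun h' => cross_not_dvd F hF2 l0 h' h5 x y hxy hd
      have hl0D : l0 ∣ D := by
        have h6 : l0 ∣ ((F x.1 x.2 : ℤ) - F y.1 y.2).natAbs := Int.natCast_dvd.1 hd
        refine h6.trans ?_
        exact dvd_prod_of_mem (fun z : (Fin 5 × Fin K) × (Fin 5 × Fin K) =>
          ((F z.1.1 z.1.2 : ℤ) - F z.2.1 z.2.2).natAbs) (a := (x, y))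
          (mem_filter.2 ⟨mem_univ _, hxy⟩)
      have hl0Q2 : l0 ∣ Q2 := dvd_prod_of_mem (fun l => l)
        (mem_filter.2 ⟨Nat.mem_primeFactors.2 ⟨hl0, hl0D, hDpos.ne'⟩, h5⟩)
      have hmem : l0 ∈ (c.natAbs * h).primeFactors.filter (fun l => ¬ l ∣ Q) :=
        mem_filter.2 ⟨Nat.mem_primeFactors.2 ⟨hl0, hl0c,
          (Nat.mul_pos (Int.natAbs_pos.2 hc) hh).ne'⟩, hl0Q⟩
      have hsub : (c.natAbs * h).primeFactors.filter (fun l => ¬ l ∣ Q * Q2) ⊆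
          ((c.natAbs * h).primeFactors.filter (fun l => ¬ l ∣ Q)).erase l0 := by
        intro l hl
        rw [mem_filter] at hl
        rw [mem_erase, mem_filter]
        refine ⟨?_, hl.1, fun h' => hl.2 (h'.mul_right _)⟩
        rintro rfl
        exact hl.2 (hl0Q2.mul_left _)
      have h6 := card_le_card hsub
      rw [card_erase_of_mem hmem] at h6
      omega

/-- For fixed `c` and `h`, both prime to `6` and both or neither divisible by `5`, the equation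
`a p - (a + h) q = c` has many prime solutions for a positive proportion of all `a`, uniformly in
all `c`, `h` with at most `r` prime factors. -/
theorem line (hQB : QuarterB) (r : ℕ) :
    ∃ (δ : ℝ) (X₀ : ℕ), 0 < δ ∧ ∀ (c : ℤ) (h : ℕ), c ≠ 0 → 0 < h →
      Nat.Coprime (c.natAbs * h) 6 → (5 ∣ c.natAbs ↔ 5 ∣ h) →
      (c.natAbs * h).primeFactors.card ≤ r →
      ∀ X : ℕ, X₀ * h ≤ X → ∀ S : Finset ℕ, (∀ a : ℕ, 1 ≤ a → a ≤ X → GoodLine c h a → a ∈ S) →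
        δ * X ≤ (S.card : ℝ) := by
  classical
  obtain ⟨K, hK1, hM⟩ := master hQB
  set Q : ℕ := ∏ l ∈ (range (5 * K + 1)).filter (fun l => l.Prime ∧ 5 ≤ l), l with hQ
  obtain ⟨δ, X₀, hδ, H⟩ := line_ind hK1 hM r r Q
    (prod_pos fun l hl => (mem_filter.1 hl).2.1.pos) (by
      intro l hl hd
      obtain ⟨l', hl', h2⟩ := (hl.prime.dvd_finsetProd_iff _).1 hd
      have hl'' := (mem_filter.1 hl').2
      rw [(Nat.prime_dvd_prime_iff_eq hl hl''.1).1 h2]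
      exact hl''.2)
    (by
      intro l hl h5 h6
      exact dvd_prod_of_mem (fun l => l) (mem_filter.2 ⟨mem_range.2 (by omega), hl, h5⟩))
  refine ⟨δ, X₀, hδ, ?_⟩
  intro c h hc hh h6 h55 hr X hX S hS
  refine H c h hc hh ?_ h55 hr ((card_filter_le _ _).trans hr) X hX S hS
  intro l hl hd
  by_contra hlt
  push Not at hlt
  have hl2 := hl.two_le
  have h7 : ¬ l ∣ 6 := by
    intro h8
    have := Nat.dvd_gcd hd h8
    rw [h6] at this
    exact hl.one_lt.ne' (Nat.dvd_one.1 this)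
  interval_cases l
  · exact h7 (by norm_num)
  · exact h7 (by norm_num)
  · exact absurd hl (by norm_num)

end Pool.Agent.W76
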