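import Pool.Agent.W76.Plane

set_option autoImplicit false

/-! The equations `a p - b q = t c`: uniformity in `c`. -/

namespace Pool.Agent.W76

open Finset Pool.Agent.H732R3.BigQ

theorem GoodPair.mono {T T' : ℕ} (h : T ≤ T') {c : ℤ} {a b : ℕ} (hg : GoodPair T c a b) :
    GoodPair T' c a b := by
  obtain ⟨t, h1, h2, h3⟩ := hg
  exact ⟨t, h1, h2.trans h, h3⟩

theorem plane_ind {K : ℕ} (hK1 : 1 ≤ K) (hM : MasterProp K) (r n : ℕ) :
    ∀ Q : ℕ, 0 < Q → (∀ l : ℕ, l.Prime → l ∣ Q → 5 ≤ l) →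
    ∃ (T : ℕ) (δ : ℝ) (X₀ : ℕ), 0 < δ ∧ ∀ (c : ℤ), c ≠ 0 → c.natAbs.primeFactors.card ≤ r →
      (c.natAbs.primeFactors.filter (fun l => 5 ≤ l ∧ ¬ l ∣ Q)).card ≤ n →
      ∀ X : ℕ, X₀ ≤ X → ∀ S : Finset (ℕ × ℕ),
        (∀ a b : ℕ, 1 ≤ a → a ≤ X → 1 ≤ b → b ≤ X → GoodPair T c a b → (a, b) ∈ S) →
        δ * (X : ℝ) ^ 2 ≤ (S.card : ℝ) := by
  classical
  induction n with
  | zero =>
    intro Q hQ hQ5
    obtain ⟨F, hF1, hF2, hF3, hF4⟩ := exists_five Q hQ hQ5 K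
    obtain ⟨T, δ, X₀, hδ, H⟩ := plane_core hK1 hM F hF3 hF4 r
    refine ⟨T, δ, X₀, hδ, ?_⟩
    intro c hc hr hn X hX S hS
    apply H c hc hr _ X hX S hS
    intro l hl h5 hlc x y hxy
    have hlQ : l ∣ Q := by
      by_contra hlQ
      have h1 : l ∈ c.natAbs.primeFactors.filter (fun l => 5 ≤ l ∧ ¬ l ∣ Q) :=
        mem_filter.2 ⟨Nat.mem_primeFactors.2 ⟨hl, hlc, (Int.natAbs_pos.2 hc).ne'⟩, h5, hlQ⟩
      have := card_pos.2 ⟨l, h1⟩
      omega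
    exact cross_not_dvd F hF2 l hlQ h5 x y hxy
  | succ n ih =>
    intro Q hQ hQ5
    obtain ⟨F, hF1, hF2, hF3, hF4⟩ := exists_five Q hQ hQ5 K
    obtain ⟨T1, δ1, X1, hδ1, H1⟩ := plane_core hK1 hM F hF3 hF4 r
    set D : ℕ := ∏ z ∈ (univ : Finset ((Fin 5 × Fin K) × (Fin 5 × Fin K))).filter
      (fun z => z.1.1 ≠ z.2.1), ((F z.1.1 z.1.2 : ℤ) - F z.2.1 z.2.2).natAbs with hD
    have hDpos : 0 < D := by
      apply prod_pos
      intro z hz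
      apply Int.natAbs_pos.2
      intro h
      have h1 : F z.1.1 z.1.2 = F z.2.1 z.2.2 := by
        have : (F z.1.1 z.1.2 : ℤ) = F z.2.1 z.2.2 := by linarith
        exact_mod_cast this
      exact (mem_filter.1 hz).2 (congrArg Prod.fst (hF3 z.1 z.2 h1))
    set Q2 : ℕ := ∏ l ∈ D.primeFactors.filter (fun l => 5 ≤ l), l with hQ2
    have hQ2pos : 0 < Q2 := prod_pos fun l hl =>
      (Nat.mem_primeFactors.1 (mem_filter.1 hl).1).1.pos
    obtain ⟨T2, δ2, X2, hδ2, H2⟩ := ih (Q * Q2) (Nat.mul_pos hQ hQ2pos) (by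
      intro l hl hd
      rcases (hl.dvd_mul).1 hd with h | h
      · exact hQ5 l hl h
      · obtain ⟨l', hl', h2⟩ := (hl.prime.dvd_finsetProd_iff _).1 h
        have hl'' := mem_filter.1 hl'
        rw [(Nat.prime_dvd_prime_iff_eq hl (Nat.mem_primeFactors.1 hl''.1).1).1 h2]
        exact hl''.2)
    refine ⟨max T1 T2, min δ1 δ2, max X1 X2, lt_min hδ1 hδ2, ?_⟩
    intro c hc hr hn X hX S hS
    have hX0 : (0 : ℝ) ≤ (X : ℝ) ^ 2 := by positivity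
    by_cases hb : ∀ l : ℕ, l.Prime → 5 ≤ l → l ∣ c.natAbs → ∀ x y : Fin 5 × Fin K, x.1 ≠ y.1 →
        ¬ (l : ℤ) ∣ (F x.1 x.2 : ℤ) - F y.1 y.2
    · refine le_trans (mul_le_mul_of_nonneg_right (min_le_left _ _) hX0) ?_
      exact H1 c hc hr hb X ((le_max_left _ _).trans hX) S
        (fun a b h1 h2 h3 h4 h5 => hS a b h1 h2 h3 h4 (h5.mono (le_max_left _ _)))
    · push Not at hb
      obtain ⟨l0, hl0, h5, hl0c, x, y, hxy, hd⟩ := hb
      refine le_trans (mul_le_mul_of_nonneg_right (min_le_right _ _) hX0) ?_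
      refine H2 c hc hr ?_ X ((le_max_right _ _).trans hX) S
        (fun a b h1 h2 h3 h4 h5 => hS a b h1 h2 h3 h4 (h5.mono (le_max_right _ _)))
      have hl0Q : ¬ l0 ∣ Q := fun h' => cross_not_dvd F hF2 l0 h' h5 x y hxy hd
      have hl0D : l0 ∣ D := by
        have h6 : l0 ∣ ((F x.1 x.2 : ℤ) - F y.1 y.2).natAbs := Int.natCast_dvd.1 hd
        refine h6.trans ?_
        exact dvd_prod_of_mem (fun z : (Fin 5 × Fin K) × (Fin 5 × Fin K) =>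
          ((F z.1.1 z.1.2 : ℤ) - F z.2.1 z.2.2).natAbs) (a := (x, y))
          (mem_filter.2 ⟨mem_univ _, hxy⟩)
      have hl0Q2 : l0 ∣ Q2 := dvd_prod_of_mem (fun l => l)
        (mem_filter.2 ⟨Nat.mem_primeFactors.2 ⟨hl0, hl0D, hDpos.ne'⟩, h5⟩)
      have hmem : l0 ∈ c.natAbs.primeFactors.filter (fun l => 5 ≤ l ∧ ¬ l ∣ Q) :=
        mem_filter.2 ⟨Nat.mem_primeFactors.2 ⟨hl0, hl0c, (Int.natAbs_pos.2 hc).ne'⟩, h5, hl0Q⟩
      have hsub : c.natAbs.primeFactors.filter (fun l => 5 ≤ l ∧ ¬ l ∣ Q * Q2) ⊆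
          (c.natAbs.primeFactors.filter (fun l => 5 ≤ l ∧ ¬ l ∣ Q)).erase l0 := by
        intro l hl
        rw [mem_filter] at hl
        rw [mem_erase, mem_filter]
        refine ⟨?_, hl.1, hl.2.1, fun h' => hl.2.2 (h'.mul_right _)⟩
        rintro rfl
        exact hl.2.2 (hl0Q2.mul_left _)
      have h6 := card_le_card hsub
      rw [card_erase_of_mem hmem] at h6
      omega

/-- For every `r` there are `T`, `δ > 0`, `X₀` such that for every nonzero `c` with at most `r`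
prime factors and every `X ≥ X₀` at least `δ X ^ 2` pairs `(a, b)` up to `X` are good. -/
theorem plane (hQB : QuarterB) (r : ℕ) :
    ∃ (T : ℕ) (δ : ℝ) (X₀ : ℕ), 0 < δ ∧ ∀ (c : ℤ), c ≠ 0 → c.natAbs.primeFactors.card ≤ r →
      ∀ X : ℕ, X₀ ≤ X → ∀ S : Finset (ℕ × ℕ),
        (∀ a b : ℕ, 1 ≤ a → a ≤ X → 1 ≤ b → b ≤ X → GoodPair T c a b → (a, b) ∈ S) →
        δ * (X : ℝ) ^ 2 ≤ (S.card : ℝ) := by
  obtain ⟨K, hK1, hM⟩ := master hQB
  obtain ⟨T, δ, X₀, hδ, H⟩ := plane_ind hK1 hM r r 1 one_pos (by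
    intro l hl hd
    exact absurd (Nat.dvd_one.1 hd) hl.one_lt.ne')
  exact ⟨T, δ, X₀, hδ, fun c hc hr X hX S hS =>
    H c hc hr ((card_filter_le _ _).trans hr) X hX S hS⟩

end Pool.Agent.W76
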