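import Mathlib

set_option autoImplicit false

/-! Coloured families of positive integers whose cross differences divide them. -/

namespace Pool.Agent.W76

open Finset

/-- Positive integers `f 0, ..., f (m-1)` with prescribed residues `cls k + s` modulo `Q` such that
`f i - f j` divides `f i` whenever the colours `cls i`, `cls j` differ. -/
theorem exists_fam (Q : ℕ) (hQ : 0 < Q) (hQ5 : ∀ l : ℕ, l.Prime → l ∣ Q → 5 ≤ l) (cls : ℕ → ℤ)
    (hcls : ∀ k, 0 ≤ cls k ∧ cls k < 5) (m : ℕ) :
    ∀ s : ℤ, ∃ f : ℕ → ℕ, (∀ k < m, 0 < f k) ∧ (∀ k < m, (Q : ℤ) ∣ (f k : ℤ) - (cls k + s)) ∧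
      (∀ i < m, ∀ j < m, f i = f j → i = j) ∧
      (∀ i < m, ∀ j < m, cls i ≠ cls j → ((f i : ℤ) - f j) ∣ f i) := by
  classical
  induction m with
  | zero =>
    intro s
    exact ⟨fun _ => 1, fun k hk => by omega, fun k hk => by omega, fun i hi => by omega,
      fun i hi => by omega⟩
  | succ m ih =>
    intro s
    obtain ⟨f, h1, h2, h3, h4⟩ := ih (-cls m)
    -- a prime of `Q` divides no difference of two distinct colours
    have hcol : ∀ l : ℕ, l.Prime → l ∣ Q → ∀ i j, (l : ℤ) ∣ cls i - cls j → cls i = cls j := by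
      intro l hl hlQ i j hd
      have h5 := hQ5 l hl hlQ
      have h5' : (5 : ℤ) ≤ l := by exact_mod_cast h5
      have hi := hcls i
      have hj := hcls j
      have habs : |cls i - cls j| < l := by
        rw [abs_lt]; constructor <;> linarith
      have := Int.eq_zero_of_abs_lt_dvd hd habs
      linarith
    set P1 : ℕ := ∏ k ∈ (range m).filter (fun k => cls k ≠ cls m), f k with hP1
    set P2 : ℕ := ∏ z ∈ ((range m) ×ˢ (range m)).filter (fun z => cls z.1 ≠ cls z.2),
      ((f z.1 : ℤ) - f z.2).natAbs with hP2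
    have hne : ∀ i < m, ∀ j < m, cls i ≠ cls j → (f i : ℤ) - f j ≠ 0 := by
      intro i hi j hj hij h
      apply hij
      have : f i = f j := by
        have : (f i : ℤ) = f j := by linarith
        exact_mod_cast this
      rw [h3 i hi j hj this]
    have hP1pos : 0 < P1 := by
      apply prod_pos
      intro k hk
      rw [mem_filter, mem_range] at hk
      exact h1 k hk.1
    have hP2pos : 0 < P2 := by
      apply prod_pos
      intro z hz
      rw [mem_filter, mem_product, mem_range, mem_range] at hz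
      exact Int.natAbs_pos.2 (hne z.1 hz.1.1 z.2 hz.1.2 hz.2)
    have hcop : Nat.Coprime (P1 * P2) Q := by
      by_contra hnc
      obtain ⟨l, hl, hl1, hlQ⟩ := Nat.Prime.not_coprime_iff_dvd.1 hnc
      have hlQZ : (l : ℤ) ∣ Q := Int.natCast_dvd_natCast.2 hlQ
      rcases (hl.dvd_mul).1 hl1 with h | h
      · obtain ⟨k, hk, h7⟩ := (hl.prime.dvd_finsetProd_iff _).1 h
        rw [mem_filter, mem_range] at hk
        have h8 : (l : ℤ) ∣ (f k : ℤ) := Int.natCast_dvd_natCast.2 h7
        have h9 := hlQZ.trans (h2 k hk.1)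
        have h10 : (l : ℤ) ∣ cls k - cls m := by
          have := dvd_sub h8 h9
          have e : (f k : ℤ) - ((f k : ℤ) - (cls k + -cls m)) = cls k - cls m := by ring
          rwa [e] at this
        exact hk.2 (hcol l hl hlQ k m h10)
      · obtain ⟨z, hz, h7⟩ := (hl.prime.dvd_finsetProd_iff _).1 h
        rw [mem_filter, mem_product, mem_range, mem_range] at hz
        have h8 : (l : ℤ) ∣ (f z.1 : ℤ) - f z.2 := Int.natCast_dvd.2 h7
        have h9 := hlQZ.trans (h2 z.1 hz.1.1)
        have h10 := hlQZ.trans (h2 z.2 hz.1.2)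
        have h11 : (l : ℤ) ∣ cls z.1 - cls z.2 := by
          have := dvd_sub h8 (dvd_sub h9 h10)
          have e : (f z.1 : ℤ) - f z.2 - (((f z.1 : ℤ) - (cls z.1 + -cls m)) -
              ((f z.2 : ℤ) - (cls z.2 + -cls m))) = cls z.1 - cls z.2 := by ring
          rwa [e] at this
        exact hz.2 (hcol l hl hlQ z.1 z.2 h11)
    obtain ⟨N0, hN01, hN02⟩ := Nat.chineseRemainder hcop 0 (((cls m + s) % Q).toNat)
    set N := N0 + P1 * P2 * Q with hN
    have hNpos : 0 < N := by
      have : 0 < P1 * P2 * Q := Nat.mul_pos (Nat.mul_pos hP1pos hP2pos) hQ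
      omega
    have hNP : P1 * P2 ∣ N := dvd_add (Nat.modEq_zero_iff_dvd.1 hN01) (Dvd.intro _ rfl)
    have hNQ : (Q : ℤ) ∣ (N : ℤ) - (cls m + s) := by
      have hQ0 : (Q : ℤ) ≠ 0 := by exact_mod_cast hQ.ne'
      have e1 : (Q : ℤ) ∣ (((cls m + s) % Q).toNat : ℤ) - (N0 : ℤ) := Nat.modEq_iff_dvd.1 hN02
      rw [Int.toNat_of_nonneg (Int.emod_nonneg _ hQ0)] at e1
      have e2 : (Q : ℤ) ∣ (cls m + s) - (cls m + s) % Q := Int.dvd_self_sub_emod
      have e3 : (Q : ℤ) ∣ ((P1 * P2 * Q : ℕ) : ℤ) :=
        Int.natCast_dvd_natCast.2 (Dvd.intro_left _ rfl)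
      have e4 := dvd_sub e3 (dvd_add e1 e2)
      have e5 : ((P1 * P2 * Q : ℕ) : ℤ) - ((((cls m + s) % Q) - (N0 : ℤ)) +
          ((cls m + s) - (cls m + s) % Q)) = (N : ℤ) - (cls m + s) := by
        rw [hN]; push_cast; ring
      rwa [e5] at e4
    have hNf : ∀ k < m, cls k ≠ cls m → f k ∣ N := by
      intro k hk hkm
      refine Dvd.dvd.trans ?_ hNP
      apply Dvd.dvd.mul_right
      exact dvd_prod_of_mem f (mem_filter.2 ⟨mem_range.2 hk, hkm⟩)
    have hNd : ∀ i < m, ∀ j < m, cls i ≠ cls j → ((f i : ℤ) - f j) ∣ N := by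
      intro i hi j hj hij
      have h5 : ((f i : ℤ) - f j).natAbs ∣ N := by
        refine Dvd.dvd.trans ?_ hNP
        apply Dvd.dvd.mul_left
        have : (i, j) ∈ ((range m) ×ˢ (range m)).filter (fun z => cls z.1 ≠ cls z.2) := by
          rw [mem_filter, mem_product, mem_range, mem_range]
          exact ⟨⟨hi, hj⟩, hij⟩
        exact dvd_prod_of_mem (fun z : ℕ × ℕ => ((f z.1 : ℤ) - f z.2).natAbs) this
      exact Int.dvd_natCast.2 h5
    refine ⟨fun k => if k < m then f k + N else N, ?_, ?_, ?_, ?_⟩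
    · intro k hk
      dsimp only
      split_ifs
      · omega
      · exact hNpos
    · intro k hk
      dsimp only
      split_ifs with h
      · have h5 := dvd_add (h2 k h) hNQ
        have e : (f k : ℤ) - (cls k + -cls m) + ((N : ℤ) - (cls m + s)) =
            ((f k + N : ℕ) : ℤ) - (cls k + s) := by push_cast; ring
        rwa [e] at h5
      · have : k = m := by omega
        rw [this]; exact hNQ
    · intro i hi j hj
      dsimp only
      split_ifs with h h' h'
      · intro h5
        exact h3 i h j h' (by omega)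
      · intro h5
        have := h1 i h
        omega
      · intro h5
        have := h1 j h'
        omega
      · intro _; omega
    · intro i hi j hj hij
      dsimp only
      split_ifs with h h' h'
      · push_cast
        have e : (f i : ℤ) + N - (f j + N) = f i - f j := by ring
        rw [e]
        exact dvd_add (h4 i h j h' hij) (hNd i h j h' hij)
      · have hj' : j = m := by omega
        subst hj'
        push_cast
        have e : (f i : ℤ) + N - N = f i := by ring
        rw [e]
        exact dvd_add dvd_rfl (Int.natCast_dvd_natCast.2 (hNf i h hij))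
      · have hi' : i = m := by omega
        subst hi'
        push_cast
        have e : (N : ℤ) - (f j + N) = -(f j : ℤ) := by ring
        rw [e, neg_dvd]
        exact Int.natCast_dvd_natCast.2 (hNf j h' (fun h5 => hij h5.symm))
      · exfalso
        have hi' : i = m := by omega
        have hj' : j = m := by omega
        subst hi'; subst hj'; exact hij rfl

/-- Five classes of `K` positive integers: `F g i ≡ g` modulo `Q`, all distinct, and cross
differences divide the elements. -/
theorem exists_five (Q : ℕ) (hQ : 0 < Q) (hQ5 : ∀ l : ℕ, l.Prime → l ∣ Q → 5 ≤ l) (K : ℕ) :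
    ∃ F : Fin 5 → Fin K → ℕ, (∀ g i, 0 < F g i) ∧ (∀ g i, (Q : ℤ) ∣ (F g i : ℤ) - (g : ℕ)) ∧
      (∀ x y : Fin 5 × Fin K, F x.1 x.2 = F y.1 y.2 → x = y) ∧
      (∀ x y : Fin 5 × Fin K, x.1 ≠ y.1 → ((F x.1 x.2 : ℤ) - F y.1 y.2) ∣ F x.1 x.2) := by
  obtain ⟨f, h1, h2, h3, h4⟩ := exists_fam Q hQ hQ5 (fun k => ((k % 5 : ℕ) : ℤ))
    (fun k => ⟨by positivity, by have := Nat.mod_lt k (show 0 < 5 by norm_num); exact_mod_cast this⟩)
    (5 * K) 0
  have hlt : ∀ (g : Fin 5) (i : Fin K), (i : ℕ) * 5 + g < 5 * K := by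
    intro g i
    have := g.2
    have := i.2
    nlinarith
  have hmod : ∀ (g : Fin 5) (i : Fin K), ((i : ℕ) * 5 + g) % 5 = g := by
    intro g i
    have := g.2
    omega
  refine ⟨fun g i => f (i * 5 + g), fun g i => h1 _ (hlt g i), ?_, ?_, ?_⟩
  · intro g i
    have := h2 _ (hlt g i)
    simp only [hmod] at this
    simpa using this
  · rintro ⟨g, i⟩ ⟨g', i'⟩ h
    have h5 := h3 _ (hlt g i) _ (hlt g' i') h
    have h6 := hmod g i
    have h7 := hmod g' i'
    have hg : (g : ℕ) = g' := by rw [← h6, ← h7, h5]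
    have hi : (i : ℕ) = i' := by omega
    exact Prod.ext (Fin.ext hg) (Fin.ext hi)
  · rintro ⟨g, i⟩ ⟨g', i'⟩ hne
    apply h4 _ (hlt g i) _ (hlt g' i')
    simp only [hmod]
    intro h
    exact hne (Fin.ext (by exact_mod_cast h))

end Pool.Agent.W76
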